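import Pool.Agent.Q239.St.Line

/-!
# The inequality on one stacky line gives the abc inequality
-/

set_option autoImplicit false

namespace Pool.Agent.Q239.St

open NumberField IsDedekindDomain Height
open Pool.Agent.Q239.NF Pool.Agent.Q239.U
open Pool.Agent.W223.AC (val_finite)

variable {K : Type} [Field K] [NumberField K]

lemma vec_val {t : K} {v : HeightOneSpectrum (𝓞 K)} (h2 : v.valuation K (2 : K) = 1) (j : Fin 3) :
    v.valuation K (vec t j) = v.valuation K (t - branch K j) := by
  fin_cases j
  · show v.valuation K (2 * t) = v.valuation K (t - 0)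
    rw [map_mul, h2, one_mul, sub_zero]
  · show v.valuation K (1 - t) = v.valuation K (t - 1)
    rw [← Valuation.map_neg]; congr 1; ring
  · show v.valuation K (-1 - t) = v.valuation K (t - -1)
    rw [← Valuation.map_neg]; congr 1; ring

omit [NumberField K] in
lemma vec_sum (t : K) : vec t 0 + vec t 1 + vec t 2 = 0 := by
  show 2 * t + (1 - t) + (-1 - t) = 0
  ring

lemma vec_le {t : K} {v : HeightOneSpectrum (𝓞 K)} (h2 : v.valuation K (2 : K) = 1)
    (ht : v.valuation K t ≤ 1) (j : Fin 3) : v.valuation K (vec t j) ≤ 1 := by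
  rw [vec_val h2]
  refine Valuation.map_sub_le _ ht ?_
  fin_cases j
  · show v.valuation K (0 : K) ≤ 1
    rw [map_zero]; exact zero_le_one
  · show v.valuation K (1 : K) ≤ 1
    rw [map_one]
  · show v.valuation K (-1 : K) ≤ 1
    rw [Valuation.map_neg, map_one]

lemma vec_eq_one {t : K} {v : HeightOneSpectrum (𝓞 K)} (h2 : v.valuation K (2 : K) = 1)
    (ht : v.valuation K t ≤ 1) (hn : Nr t v) : ∃ i, v.valuation K (vec t i) = 1 := by
  obtain ⟨i, j, hij⟩ := (nr_iff_bad h2).mp hn
  by_contra hcon
  push Not at hcon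
  have hlt : ∀ i, v.valuation K (vec t i) < 1 := fun i => lt_of_le_of_ne (vec_le h2 ht i) (hcon i)
  -- `2 = vec 1 - vec 2`
  have h3 : (2 : K) = vec t 1 - vec t 2 := by
    show (2 : K) = (1 - t) - (-1 - t)
    ring
  have h4 : v.valuation K (2 : K) < 1 := by
    rw [h3]
    exact Valuation.map_sub_lt _ (hlt 1) (hlt 2)
  rw [h2] at h4
  exact lt_irrefl _ h4

lemma int_val_le (v : HeightOneSpectrum (𝓞 K)) (a : 𝓞 K) : v.valuation K (a : K) ≤ 1 :=
  v.valuation_le_one a

lemma int_val_exp (v : HeightOneSpectrum (𝓞 K)) {a : 𝓞 K} (ha : (a : K) ≠ 0) :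
    ∃ m : ℕ, v.valuation K (a : K) = WithZero.exp (-(m : ℤ)) := by
  have h1 := int_val_le v a
  have h0 : v.valuation K (a : K) ≠ 0 := (Valuation.ne_zero_iff _).mpr ha
  obtain ⟨k, hk⟩ : ∃ k : ℤ, v.valuation K (a : K) = WithZero.exp k :=
    ⟨WithZero.log (v.valuation K (a : K)), (WithZero.exp_log h0).symm⟩
  rw [hk] at h1
  have h2 : k ≤ 0 := by
    rw [← WithZero.exp_zero, WithZero.exp_le_exp] at h1
    exact h1
  exact ⟨(-k).toNat, by rw [hk]; congr 1; omega⟩

theorem abc_of_line {p q r n : ℕ} (hn : n ≠ 0) (h : LineIneq K ![p, q, r]) :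
    abcOn (Sol (K := K) p q r n) := by
  intro ε hε
  have h2n : (((2 * n : ℕ) : K)) ≠ 0 := by
    have : (2 * n) ≠ 0 := by omega
    exact_mod_cast this
  set S : Finset (HeightOneSpectrum (𝓞 K)) := (val_finite _ h2n).toFinset with hS
  have hSv : ∀ v ∉ S, v.valuation K (2 : K) = 1 ∧ v.valuation K (n : K) = 1 := by
    intro v hv
    rw [hS, Set.Finite.mem_toFinset] at hv
    have hv' : ¬ v.valuation K ((2 * n : ℕ) : K) < 1 := hv
    have hnat : ∀ m : ℕ, v.valuation K (m : K) ≤ 1 := by
      intro m
      have h1 := int_val_le v (m : 𝓞 K)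
      have e : ((m : 𝓞 K) : K) = (m : K) := map_natCast (algebraMap (𝓞 K) K) m
      rwa [e] at h1
    have h3 : v.valuation K (2 : K) ≤ 1 := by
      have := hnat 2
      rwa [Nat.cast_ofNat] at this
    have h4 : v.valuation K (n : K) ≤ 1 := hnat n
    push_cast at hv'
    rw [map_mul] at hv'
    constructor
    · rcases h3.lt_or_eq with h5 | h5
      · exact absurd (mul_lt_one_of_nonneg_of_lt_one_left zero_le h5 h4) hv'
      · exact h5
    · rcases h4.lt_or_eq with h5 | h5
      · exact absurd (mul_lt_one_of_nonneg_of_lt_one_right h3 zero_le h5) hv'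
      · exact h5
  obtain ⟨C, hC⟩ := h S (ε / (1 + ε)) (by positivity)
  obtain ⟨C1, hC1⟩ := height_vec_le K
  refine ⟨(1 + ε) * |C| + |C1| + |logHeight (![-2, 1, 1] : Fin 3 → K)|, ?_⟩
  intro x hxS hx
  have hRR := RR_nonneg x
  have hC0 := abs_nonneg C
  have hC10 := abs_nonneg C1
  have hL0 := abs_nonneg (logHeight (![-2, 1, 1] : Fin 3 → K))
  obtain ⟨hsum, hx0⟩ := hx
  by_cases h12 : x 1 = x 2
  · have e : x = x 1 • (![-2, 1, 1] : Fin 3 → K) := by
      funext i
      fin_cases i
      · show x 0 = x 1 * -2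
        linear_combination hsum + h12
      · show x 1 = x 1 * 1
        ring
      · show x 2 = x 1 * 1
        rw [h12]; ring
    have h3 : logHeight x = logHeight (![-2, 1, 1] : Fin 3 → K) := by
      rw [e]; exact logHeight_smul_eq_logHeight _ (hx0 1)
    rw [h3]
    have := le_abs_self (logHeight (![-2, 1, 1] : Fin 3 → K))
    have h5 : 0 ≤ (1 + ε) * RR x := by positivity
    have h6 : 0 ≤ (1 + ε) * |C| := by positivity
    linarith
  · have hd : x 1 - x 2 ≠ 0 := sub_ne_zero.mpr h12
    set t : K := x 0 / (x 1 - x 2) with ht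
    set l : K := 2 / (x 1 - x 2) with hl
    have hl0 : l ≠ 0 := div_ne_zero two_ne_zero hd
    have hvec : vec t = l • x := by
      funext i
      fin_cases i
      · show 2 * t = l * x 0
        rw [ht, hl]; ring
      · show 1 - t = l * x 1
        rw [ht, hl, eq_comm, div_mul_eq_mul_div, div_eq_iff hd, sub_mul, one_mul,
          div_mul_cancel₀ _ hd]
        linear_combination hsum
      · show -1 - t = l * x 2
        rw [ht, hl, eq_comm, div_mul_eq_mul_div, div_eq_iff hd, sub_mul,
          div_mul_cancel₀ _ hd]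
        linear_combination hsum
    have hvec0 : ∀ i, vec t i ≠ 0 := by
      intro i
      rw [hvec]
      exact mul_ne_zero hl0 (hx0 i)
    have htb : ∀ j, t ≠ branch K j := by
      intro j hj
      fin_cases j
      · apply hvec0 0
        show 2 * t = 0
        rw [show t = 0 from hj, mul_zero]
      · apply hvec0 1
        show 1 - t = 0
        rw [show t = 1 from hj, sub_self]
      · apply hvec0 2
        show -1 - t = 0
        rw [show t = -1 from hj, sub_self]
    obtain ⟨a, b, c, hxe, hspan⟩ := hxS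
    have hx_0 : x 0 = ((a ^ p : 𝓞 K) : K) := by rw [hxe]; simp
    have hx_1 : x 1 = ((b ^ q : 𝓞 K) : K) := by rw [hxe]; simp
    have hx_2 : x 2 = -((c ^ r : 𝓞 K) : K) := by rw [hxe]; simp
    have hon : OnLine S ![p, q, r] t := by
      intro v hv ht1 j hj
      obtain ⟨hv2, hvn⟩ := hSv v hv
      have hxle : ∀ i, v.valuation K (x i) ≤ 1 := by
        intro i
        fin_cases i
        · show v.valuation K (x 0) ≤ 1
          rw [hx_0]; exact int_val_le v _
        · show v.valuation K (x 1) ≤ 1
          rw [hx_1]; exact int_val_le v _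
        · show v.valuation K (x 2) ≤ 1
          rw [hx_2, Valuation.map_neg]; exact int_val_le v _
      have hx1 : ∃ k, v.valuation K (x k) = 1 := by
        by_contra hcon
        push Not at hcon
        have hlt : ∀ i, v.valuation K (x i) < 1 := fun i => lt_of_le_of_ne (hxle i) (hcon i)
        have m0 : a ^ p ∈ v.asIdeal := by
          rw [← v.valuation_lt_one_iff_mem (K := K)]
          have := hlt 0
          rwa [hx_0] at this
        have m1 : b ^ q ∈ v.asIdeal := by
          rw [← v.valuation_lt_one_iff_mem (K := K)]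
          have := hlt 1
          rwa [hx_1] at this
        have m2 : c ^ r ∈ v.asIdeal := by
          rw [← v.valuation_lt_one_iff_mem (K := K)]
          have := hlt 2
          rwa [hx_2, Valuation.map_neg] at this
        have hsub : Ideal.span {a ^ p, b ^ q, c ^ r} ≤ v.asIdeal := by
          rw [Ideal.span_le]
          rintro y (rfl | rfl | rfl)
          · exact m0
          · exact m1
          · exact m2
        have hnm := hsub hspan
        rw [← v.valuation_lt_one_iff_mem (K := K)] at hnm
        have h9 : v.valuation K (algebraMap (𝓞 K) K (n : 𝓞 K)) < 1 := hnm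
        rw [map_natCast, hvn] at h9
        exact lt_irrefl _ h9
      obtain ⟨i, hi⟩ := vec_eq_one hv2 ht1 ⟨ht1, j, hj⟩
      obtain ⟨k, hk⟩ := hx1
      have hlx : ∀ i, v.valuation K (vec t i) = v.valuation K l * v.valuation K (x i) := by
        intro i
        rw [hvec]
        exact map_mul _ _ _
      have hl1 : v.valuation K l = 1 := by
        apply le_antisymm
        · have h3 := vec_le hv2 ht1 k
          rwa [hlx, hk, mul_one] at h3
        · have h3 := hlx i
          rw [hi] at h3
          rw [h3]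
          exact mul_le_of_le_one_right' (hxle i)
      have hval : v.valuation K (t - branch K j) = v.valuation K (x j) := by
        rw [← vec_val hv2, hlx, hl1, one_mul]
      rw [hval]
      have hxj : v.valuation K (x j) ≠ 0 := (Valuation.ne_zero_iff _).mpr (hx0 j)
      have key : ∀ (y : 𝓞 K) (s : ℕ), ((y ^ s : 𝓞 K) : K) ≠ 0 →
          ∃ m : ℕ, s ∣ m ∧ v.valuation K ((y ^ s : 𝓞 K) : K) = WithZero.exp (-(m : ℤ)) := by
        intro y s hy
        by_cases hs : s = 0
        · subst hs
          exact ⟨0, dvd_rfl, by simp⟩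
        have hy0 : (y : K) ≠ 0 := by
          intro h0
          apply hy
          show algebraMap (𝓞 K) K (y ^ s) = 0
          rw [map_pow, show algebraMap (𝓞 K) K y = 0 from h0, zero_pow hs]
        obtain ⟨m, hm⟩ := int_val_exp v hy0
        refine ⟨s * m, dvd_mul_right _ _, ?_⟩
        have hm' : v.valuation K (algebraMap (𝓞 K) K y) = WithZero.exp (-(m : ℤ)) := hm
        show v.valuation K (algebraMap (𝓞 K) K (y ^ s)) = _
        rw [map_pow, map_pow, hm', ← WithZero.exp_nsmul]
        congr 1
        push_cast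
        rw [nsmul_eq_mul]; ring
      fin_cases j
      · obtain ⟨m, h3, h4⟩ := key a p (by rw [← hx_0]; exact hx0 0)
        exact ⟨m, h3, by rw [← h4, ← hx_0]; rfl⟩
      · obtain ⟨m, h3, h4⟩ := key b q (by rw [← hx_1]; exact hx0 1)
        exact ⟨m, h3, by rw [← h4, ← hx_1]; rfl⟩
      · obtain ⟨m, h3, h4⟩ := key c r (by
          have := hx0 2
          rw [hx_2] at this
          exact neg_ne_zero.mp this)
        refine ⟨m, h3, ?_⟩
        rw [← h4]
        show v.valuation K (x 2) = _
        rw [hx_2, Valuation.map_neg]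
    have h3 := hC t htb hon
    have h4 : cnt1 S (Nr t) ≤ RR x := by
      have : RR x = RR (vec t) := by rw [hvec, RR_smul x hl0]
      rw [this]
      exact cnt1_le_RR hvec0 fun v hv hnr => (nr_iff_bad (hSv v hv).1).mp hnr
    have h5 : logHeight x = logHeight (vec t) := by
      rw [hvec, logHeight_smul_eq_logHeight _ hl0]
    have h6 := hC1 t
    rw [← h5] at h6
    have h7 : logHeight₁ t ≤ (1 + ε) * (RR x + C) := by
      have e : (1 - ε / (1 + ε)) = (1 + ε)⁻¹ := by field_simp; ring
      rw [e] at h3
      have h8 : (1 + ε)⁻¹ * logHeight₁ t ≤ RR x + C := by linarith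
      have h9 : (1 + ε) * ((1 + ε)⁻¹ * logHeight₁ t) ≤ (1 + ε) * (RR x + C) := by gcongr
      rwa [← mul_assoc, mul_inv_cancel₀ (by positivity), one_mul] at h9
    have h8 : (1 + ε) * C ≤ (1 + ε) * |C| := by gcongr; exact le_abs_self C
    have h9 := le_abs_self C1
    linarith

end Pool.Agent.Q239.St
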