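import Pool.Agent.Q239.St.Abc
import Pool.Agent.W223.AC.Split
import Pool.Agent.W976.AC.EX
import Pool.Agent.W460.AC.NORM
import Pool.Agent.W597.AC.LOC
import Pool.Agent.W193.AC.FINQ
import Pool.Agent.W398.AC.DIM
import Pool.Agent.W131.AC.GROW
import Pool.Agent.W989.AC.MULT
import Pool.Agent.W410.AC.HTG
import Pool.Agent.W756.AC.LOCP
import Pool.Agent.W223.AC.SUMP

/-!
# From the abc inequality to all stacky curves
-/

set_option autoImplicit false

namespace Pool.Agent.Q239.St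

open NumberField IsDedekindDomain Height Polynomial
open Pool.Agent.Q239.NF Pool.Agent.Q239.U
open Pool.Agent.W223.VD (cnt)
open Pool.Agent.W223.CV (cc ct ct_pos ct_neg ct_nonneg ct_support log_norm_nonneg cc_mono cc_or
  cc_exists)
open Pool.Agent.W223.AC (val_finite val_nat_eq_one not_mem_of_primes not_mem_of_dvd NearP tt pt)

variable {K : Type} [Field K] [NumberField K]

/-- the three points over `ℚ` -/
def brQ : Fin 3 → ℚ := ![0, 1, -1]

lemma brQ_cast (j : Fin 3) : ((brQ j : ℚ) : K) = branch K j := by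
  fin_cases j
  · show ((0 : ℚ) : K) = 0
    simp
  · show ((1 : ℚ) : K) = 1
    simp
  · show ((-1 : ℚ) : K) = -1
    simp

/-- finitely many primes contribute a constant -/
lemma cc_add_const (S' : Finset ℕ) (h0 : (0 : ℕ) ∉ S') : ∃ C : ℝ, 0 ≤ C ∧
    ∀ (A A' : HeightOneSpectrum (𝓞 K) → Prop), {v | A' v}.Finite →
      (∀ v : HeightOneSpectrum (𝓞 K), (∀ p ∈ S', (p : 𝓞 K) ∉ v.asIdeal) → A v → A' v) →
      cc ∅ A ≤ cc S' A' + C := by
  classical
  have hfin : {v : HeightOneSpectrum (𝓞 K) | ∃ p ∈ S', (p : 𝓞 K) ∈ v.asIdeal}.Finite := by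
    have h1 : (⋃ p ∈ S', {v : HeightOneSpectrum (𝓞 K) | v.valuation K (p : K) < 1}).Finite := by
      refine Set.Finite.biUnion S'.finite_toSet fun p hp => val_finite _ ?_
      have : p ≠ 0 := by rintro rfl; exact h0 hp
      exact_mod_cast this
    refine h1.subset ?_
    rintro v ⟨p, hp, hv⟩
    simp only [Set.mem_iUnion]
    refine ⟨p, hp, ?_⟩
    rw [← v.valuation_lt_one_iff_mem (K := K)] at hv
    have hv' : v.valuation K (algebraMap (𝓞 K) K (p : 𝓞 K)) < 1 := hv
    rw [map_natCast] at hv'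
    exact hv'
  set B := hfin.toFinset with hB
  refine ⟨∑ v ∈ B, Real.log (Ideal.absNorm v.asIdeal),
    Finset.sum_nonneg fun v _ => log_norm_nonneg v, ?_⟩
  intro A A' hA' h
  set g : HeightOneSpectrum (𝓞 K) → ℝ := fun v =>
    if v ∈ B then Real.log (Ideal.absNorm v.asIdeal) else 0 with hg
  have hgs : Function.HasFiniteSupport g := by
    refine B.finite_toSet.subset fun v hv => ?_
    rw [Function.mem_support] at hv
    by_contra hb
    exact hv (if_neg hb)
  have hgsum : ∑ᶠ v, g v = ∑ v ∈ B, Real.log (Ideal.absNorm v.asIdeal) := by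
    rw [finsum_eq_sum_of_support_subset (s := B)]
    · exact Finset.sum_congr rfl fun v hv => if_pos hv
    · intro v hv
      rw [Function.mem_support] at hv
      by_contra hb
      exact hv (if_neg hb)
  rw [← hgsum]
  unfold cc
  have hs1 := ct_support (L := K) S' hA'
  rw [← finsum_add_distrib hs1 hgs]
  have hle : ∀ v, ct ∅ A v ≤ ct S' A' v + g v := by
    intro v
    by_cases hvB : v ∈ B
    · rw [show g v = Real.log (Ideal.absNorm v.asIdeal) from if_pos hvB]
      have h1 := ct_nonneg S' A' v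
      by_cases hA : A v
      · rw [ct_pos ⟨by simp, hA⟩]; linarith
      · rw [ct_neg (fun h2 => hA h2.2)]
        have := log_norm_nonneg v
        linarith
    · rw [show g v = 0 from if_neg hvB, add_zero]
      have hv : ∀ p ∈ S', (p : 𝓞 K) ∉ v.asIdeal := by
        intro p hp hpv
        exact hvB ((Set.Finite.mem_toFinset hfin).mpr ⟨p, hp, hpv⟩)
      by_cases hA : A v
      · rw [ct_pos ⟨by simp, hA⟩, ct_pos ⟨hv, h v hv hA⟩]
      · rw [ct_neg (fun h2 => hA h2.2)]
        exact ct_nonneg _ _ _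
  have hs2 : (Function.support fun v => ct S' A' v + g v).Finite :=
    Set.Finite.subset (hs1.union hgs) (Function.support_add _ _)
  refine finsum_le_finsum' ?_ hs2 hle
  refine hs2.subset fun v hv => ?_
  rw [Function.mem_support] at hv ⊢
  intro h0'
  apply hv
  have h1 := hle v
  have h2 := ct_nonneg ∅ A v
  show ct ∅ A v = 0
  rw [h0'] at h1
  linarith

/-- the counting function of the line in the notation of the library -/
lemma cnt_ge (S' : Finset ℕ) (t : K) (ht : ∀ j, t ≠ branch K j) :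
    cc S' (Nr t) ≤ cnt S' (fun j => pt (brQ j)) t := by
  classical
  unfold cc cnt
  have hfin := nr_fin ht
  have hle : ∀ v : HeightOneSpectrum (𝓞 K), Nr t v →
      ∃ j, v.valuation K (((pt (brQ j)).1 : K) - t * ((pt (brQ j)).2 : K)) <
        max (v.valuation K t) 1 := by
    rintro v ⟨h1, j, hj⟩
    refine ⟨j, ?_⟩
    rw [max_eq_right h1]
    have e : ((pt (brQ j)).1 : K) - t * ((pt (brQ j)).2 : K) = -(t - branch K j) := by
      fin_cases j
      · show (((0 : ℚ).num : ℤ) : K) - t * (((0 : ℚ).den : ℤ) : K) = -(t - 0)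
        simp
      · show (((1 : ℚ).num : ℤ) : K) - t * (((1 : ℚ).den : ℤ) : K) = -(t - 1)
        simp
      · show (((-1 : ℚ).num : ℤ) : K) - t * (((-1 : ℚ).den : ℤ) : K) = -(t - -1)
        simp
        ring
    rw [e, Valuation.map_neg]
    exact hj
  have hfin2 : {v : HeightOneSpectrum (𝓞 K) | ∃ j, v.valuation K (((pt (brQ j)).1 : K) -
      t * ((pt (brQ j)).2 : K)) < max (v.valuation K t) 1}.Finite := by
    refine (Set.finite_iUnion fun j => Pool.Agent.W598.VD.TR.finite_support (K := K) t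
      (((pt (brQ j)).1 : K) - t * ((pt (brQ j)).2 : K)) ?_).subset ?_
    · intro h0
      apply ht j
      fin_cases j
      · have h1 : (((0 : ℚ).num : ℤ) : K) - t * (((0 : ℚ).den : ℤ) : K) = 0 := h0
        simp at h1
        exact h1
      · have h1 : (((1 : ℚ).num : ℤ) : K) - t * (((1 : ℚ).den : ℤ) : K) = 0 := h0
        simp at h1
        exact (sub_eq_zero.mp h1).symm
      · have h1 : (((-1 : ℚ).num : ℤ) : K) - t * (((-1 : ℚ).den : ℤ) : K) = 0 := h0
        simp at h1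
        exact (sub_eq_zero.mp h1).symm
    · rintro v ⟨j, hj⟩
      exact Set.mem_iUnion.mpr ⟨j, hj⟩
  refine finsum_le_finsum' (ct_support S' hfin) ?_ ?_
  · refine hfin2.subset fun v hv => ?_
    rw [Function.mem_support] at hv
    by_contra hb
    apply hv
    rw [if_neg]
    rintro ⟨-, h2⟩
    exact hb h2
  · intro v
    beta_reduce
    by_cases h1 : (∀ p ∈ S', (p : 𝓞 K) ∉ v.asIdeal) ∧ Nr t v
    · rw [ct_pos h1, if_pos ⟨h1.1, hle v h1.2⟩]
    · rw [ct_neg h1]
      split_ifs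
      · exact log_norm_nonneg v
      · exact le_rfl

/-- the abc inequality in terms of `t` -/
lemma line_abc (h : abcOn (Set.univ : Set (Fin 3 → K))) (S' : Finset ℕ) (h0 : (0 : ℕ) ∉ S')
    (h2 : ∀ v : HeightOneSpectrum (𝓞 K), (∀ p ∈ S', (p : 𝓞 K) ∉ v.asIdeal) →
      v.valuation K (2 : K) = 1) (ε : ℝ) (hε : 0 < ε) : ∃ C : ℝ, ∀ t : K,
    (∀ j, t ≠ branch K j) → logHeight₁ t ≤ (1 + ε) * cnt S' (fun j => pt (brQ j)) t + C := by
  obtain ⟨C, hC⟩ := h ε hε
  obtain ⟨C1, hC1⟩ := height_le_vec K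
  obtain ⟨C2, hC20, hC2⟩ := cc_add_const (K := K) S' h0
  refine ⟨(1 + ε) * C2 + C + C1, fun t ht => ?_⟩
  have hvec0 : ∀ i, vec t i ≠ 0 := by
    intro i h0
    apply ht i
    fin_cases i
    · have h1 : 2 * t = 0 := h0
      exact (mul_eq_zero.mp h1).resolve_left two_ne_zero
    · have h1 : 1 - t = 0 := h0
      exact (sub_eq_zero.mp h1).symm
    · have h1 : -1 - t = 0 := h0
      exact (sub_eq_zero.mp h1).symm
  have h3 := hC (vec t) (Set.mem_univ _) ⟨vec_sum t, hvec0⟩
  have h4 := hC1 t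
  have h5 : RR (vec t) ≤ cc S' (Nr t) + C2 := by
    rw [RR_eq_cc]
    refine hC2 _ _ (nr_fin ht) fun v hv hb => ?_
    exact (nr_iff_bad (h2 v hv)).mpr hb
  have h6 := cnt_ge S' t ht
  have h7 : (1 + ε) * RR (vec t) ≤ (1 + ε) * (cnt S' (fun j => pt (brQ j)) t + C2) := by
    gcongr; linarith
  linarith

/-- `1 - ∑_{l ∉ J} dim (A / I_l) / (e_l N)` -/
noncomputable def degree {A : Type} [CommRing A] [Algebra ℚ A] [Algebra ℚ[X] A] {k : ℕ}
    (s : Fin k → ℕ) (z : ∀ l, Fin (s l + 1) → A) (e : Fin k → ℕ) (J : Finset (Fin k)) : ℝ :=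
  1 - ∑ l ∈ Jᶜ, (Module.finrank ℚ (A ⧸ Ideal.span (Set.range (z l))) : ℝ) /
    (e l * Module.finrank ℚ[X] A)

/-- integral points of the stacky curve -/
def IntPt {A : Type} [CommRing A] [Algebra ℚ[X] A] {k : ℕ}
    (S : Finset (HeightOneSpectrum (𝓞 K)))
    (s : Fin k → ℕ) (z : ∀ l, Fin (s l + 1) → A) (e : Fin k → ℕ) (φ : A →+* K) : Prop :=
  ∀ v ∉ S, ∀ l, NearP (z l) φ v →
    ∃ m : ℕ, e l ∣ m ∧ (∀ i, v.valuation K (φ (z l i)) ≤ WithZero.exp (-(m : ℤ))) ∧
      ∃ i, v.valuation K (φ (z l i)) = WithZero.exp (-(m : ℤ))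

theorem curve_of_abc (h : abcOn (Set.univ : Set (Fin 3 → K)))
    (A : Type) [CommRing A] [IsDedekindDomain A] [Algebra ℚ A] [Algebra ℚ[X] A]
    [IsScalarTower ℚ ℚ[X] A] [Module.Finite ℚ[X] A] [FaithfulSMul ℚ[X] A]
    (k : ℕ) (j : Fin k → Fin 3) (s : Fin k → ℕ) (z : ∀ l, Fin (s l + 1) → A)
    (hz0 : ∀ l, z l 0 = tt A - algebraMap ℚ[X] A (C (brQ (j l))))
    (hcov : ∀ i, ∏ l with j l = i, Ideal.span (Set.range (z l)) ≤
      (Ideal.span {tt A - algebraMap ℚ[X] A (C (brQ i))}).radical)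
    (S : Finset (HeightOneSpectrum (𝓞 K))) (δ : ℝ) (hδ : 0 < δ) :
    ∃ Cf : ℝ, ∀ φ : A →+* K, (∀ i, φ (tt A) ≠ branch K i) →
      ∀ (e : Fin k → ℕ) (J : Finset (Fin k)), (∀ l, 1 ≤ e l) → IntPt S s z e φ →
        (degree s z e J - δ) * logHeight₁ (φ (tt A)) - Cf ≤
          cnt1 S (fun v => ∃ l ∈ J, NearP (z l) φ v) := by
  classical
  have hk0 : (0 : ℝ) < (k : ℝ) + 1 := by positivity
  obtain ⟨M, Ck, G, hM, hCk, hG, hkey⟩ := Pool.Agent.W223.AC.keyG
    (Pool.Agent.W223.AC.nbp (Pool.Agent.W976.AC.EX.t Pool.Agent.W398.AC.DIM.t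
      Pool.Agent.W193.AC.FINQ.t Pool.Agent.W989.AC.MULT.t) Pool.Agent.W756.AC.t
      (Pool.Agent.W410.AC.t Pool.Agent.W131.AC.t) Pool.Agent.W223.AC.SUMP.t
      Pool.Agent.W460.AC.t)
    Pool.Agent.W989.AC.MULT.t Pool.Agent.W597.AC.t A brQ j s z hz0 hcov
    (δ / 2 / (k + 1)) (by positivity)
  set n2 : ℕ := 2 * ∏ v ∈ S, Ideal.absNorm v.asIdeal with hn2
  have hn20 : n2 ≠ 0 := by
    rw [hn2]
    refine mul_ne_zero two_ne_zero (Finset.prod_ne_zero_iff.2 fun p _ => ?_)
    rw [Ne, Ideal.absNorm_eq_zero_iff]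
    exact p.ne_bot
  set S0 : Finset ℕ := n2.primeFactors with hS0
  have hS0v : ∀ v : HeightOneSpectrum (𝓞 K), (∀ p ∈ S0, (p : 𝓞 K) ∉ v.asIdeal) →
      v ∉ S ∧ v.valuation K (2 : K) = 1 := by
    intro v hv
    have h1 := not_mem_of_primes hn20 hv
    constructor
    · intro hvS
      have h3 : ((Ideal.absNorm v.asIdeal : ℕ) : 𝓞 K) ∉ v.asIdeal :=
        not_mem_of_dvd (Dvd.dvd.mul_left (Finset.dvd_prod_of_mem
          (fun v : HeightOneSpectrum (𝓞 K) => Ideal.absNorm v.asIdeal) hvS) 2) h1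
      exact h3 (Ideal.absNorm_mem v.asIdeal)
    · have h3 : ((2 : ℕ) : 𝓞 K) ∉ v.asIdeal := not_mem_of_dvd (dvd_mul_right 2 _) h1
      have := val_nat_eq_one v 2 h3
      exact_mod_cast this
  set S' : Finset ℕ := S0 ∪ M.primeFactors with hS'
  have h0S' : (0 : ℕ) ∉ S' := by
    intro h0
    rcases Finset.mem_union.mp h0 with h1 | h1
    · exact absurd (Nat.prime_of_mem_primeFactors h1) Nat.not_prime_zero
    · exact absurd (Nat.prime_of_mem_primeFactors h1) Nat.not_prime_zero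
  obtain ⟨Ca, hCa⟩ := line_abc h S' h0S' (fun v hv => (hS0v v fun p hp =>
    hv p (Finset.mem_union_left _ hp)).2) (δ / 2) (by positivity)
  -- the roots of `G`
  have hGfin : {t : K | aeval t G = 0}.Finite := by
    have h1 := (G.rootSet_finite K)
    refine h1.subset fun t ht => ?_
    rw [Polynomial.mem_rootSet]
    exact ⟨hG, ht⟩
  obtain ⟨CG, hCG⟩ : ∃ CG : ℝ, ∀ t : K, aeval t G = 0 → logHeight₁ t ≤ CG := by
    obtain ⟨B, hB⟩ := (hGfin.image fun t : K => logHeight₁ t).bddAbove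
    exact ⟨B, fun t ht => hB ⟨t, ht, rfl⟩⟩
  set d : ℝ := (Module.finrank ℚ K : ℝ) with hd
  have hd0 : 0 ≤ d := by positivity
  refine ⟨|CG| + |Ca| + k * (d * Ck), ?_⟩
  intro φ hne e J he hint
  obtain ⟨t, ht⟩ : ∃ t : K, t = φ (tt A) := ⟨_, rfl⟩
  rw [← ht] at hne ⊢
  have hh0 : 0 ≤ logHeight₁ t := zero_le_logHeight₁ t
  set hh : ℝ := logHeight₁ t with hhdef
  have hzne : ∀ l, φ (z l 0) ≠ 0 := by
    intro l
    rw [hz0 l, map_sub]
    have h1 : φ (algebraMap ℚ[X] A (Polynomial.C (brQ (j l)))) = branch K (j l) := by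
      rw [← brQ_cast]
      exact eq_ratCast (φ.comp ((algebraMap ℚ[X] A).comp Polynomial.C)) (brQ (j l))
    rw [h1, ← ht]
    exact sub_ne_zero.mpr (hne (j l))
  have hfin : ∀ l, {v : HeightOneSpectrum (𝓞 K) | NearP (z l) φ v}.Finite :=
    fun l => Pool.Agent.W223.AC.near_finite (z l) φ (hzne l)
  have hcnt0 : 0 ≤ cnt1 S (fun v => ∃ l ∈ J, NearP (z l) φ v) := by
    unfold cnt1
    refine finsum_nonneg fun v => ?_
    split_ifs
    · exact log_norm_nonneg v
    · exact le_rfl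
  have hCk0 : 0 ≤ (k : ℝ) * (d * Ck) := by positivity
  have hdeg : degree s z e J ≤ 1 := by
    unfold degree
    have : 0 ≤ ∑ l ∈ Jᶜ, (Module.finrank ℚ (A ⧸ Ideal.span (Set.range (z l))) : ℝ) /
      (e l * Module.finrank ℚ[X] A) := Finset.sum_nonneg fun l _ => by positivity
    linarith
  by_cases hGt : aeval t G = 0
  · have h1 := hCG t hGt
    have h2 : (degree s z e J - δ) * hh ≤ 1 * hh := by gcongr; linarith
    have h3 := le_abs_self CG
    have h4 := abs_nonneg Ca
    linarith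
  · obtain ⟨hk1, hk2⟩ := hkey K φ (by rw [← ht]; exact hGt) (by
      intro i
      rw [← ht, brQ_cast]
      exact hne i)
    have hk1 := hk1 S0
    rw [← ht] at hk1
    have h5 : ∀ l, cc S0 (fun v : HeightOneSpectrum (𝓞 K) => NearP (z l) φ v) ≤
        ((Module.finrank ℚ (A ⧸ Ideal.span (Set.range (z l))) : ℝ) /
            (e l * Module.finrank ℚ[X] A) + δ / 2 / (k + 1)) * hh + d * Ck := by
      intro l
      obtain ⟨h6, h7⟩ := hk2 l
      have he1 : (1 : ℝ) ≤ e l := by exact_mod_cast he l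
      have h8 := Pool.Agent.W223.AC.split_order (z l) φ S0 (hzne l) h6 (e l) (by
        intro v hvS hnear i
        obtain ⟨m, hm, hle, i', hi'⟩ := hint v (hS0v v hvS).1 l hnear
        have hm0 : m ≠ 0 := by
          rintro rfl
          have h9 := hnear.2 i'
          rw [hi'] at h9
          simp at h9
        obtain ⟨c', rfl⟩ := hm
        refine (hle i).trans ?_
        rw [WithZero.exp_le_exp, neg_le_neg_iff]
        have : 1 ≤ c' := by
          rcases Nat.eq_zero_or_pos c' with h | h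
          · rw [h, mul_zero] at hm0; exact absurd rfl hm0
          · exact h
        exact_mod_cast Nat.le_mul_of_pos_right _ this)
      have h9 : Real.log (Height.mulHeight₁ (φ (tt A))) = hh := by
        rw [← ht]
        rfl
      rw [h9] at h7
      have h10 : 0 ≤ ∑ w : InfinitePlace K, (w.mult : ℝ) *
          Pool.Agent.W223.AC.lamI (z l) φ w :=
        Finset.sum_nonneg fun w _ => mul_nonneg (Nat.cast_nonneg _)
          (Pool.Agent.W223.AC.lamI_nonneg _ _ _)
      have h11 : (e l : ℝ) * cc S0 (fun v : HeightOneSpectrum (𝓞 K) =>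
          NearP (z l) φ v) ≤
          ((Module.finrank ℚ (A ⧸ Ideal.span (Set.range (z l))) : ℝ) /
            Module.finrank ℚ[X] A + δ / 2 / (k + 1)) * hh + d * Ck := by linarith
      have he0 : (0 : ℝ) < e l := by linarith
      refine le_of_mul_le_mul_left (h11.trans ?_) he0
      have h12 : (e l : ℝ) * (((Module.finrank ℚ (A ⧸ Ideal.span (Set.range (z l))) : ℝ) /
            (e l * Module.finrank ℚ[X] A) + δ / 2 / (k + 1)) * hh + d * Ck) =
          ((Module.finrank ℚ (A ⧸ Ideal.span (Set.range (z l))) : ℝ) /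
            Module.finrank ℚ[X] A) * hh +
          e l * (δ / 2 / (k + 1) * hh + d * Ck) := by
        rw [mul_comm (e l : ℝ) (Module.finrank ℚ[X] A : ℝ), ← div_div]
        field_simp
        ring
      rw [h12]
      have h13 : 0 ≤ δ / 2 / (k + 1) * hh + d * Ck := by positivity
      nlinarith
    have h6 := Finset.sum_le_sum fun l (_ : l ∈ Jᶜ) => h5 l
    have h7 : ∑ l ∈ Jᶜ, (((Module.finrank ℚ (A ⧸ Ideal.span (Set.range (z l))) : ℝ) /
            (e l * Module.finrank ℚ[X] A) + δ / 2 / (k + 1)) * hh + d * Ck) ≤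
        (1 - degree s z e J + δ / 2) * hh + k * (d * Ck) := by
      rw [Finset.sum_add_distrib, ← Finset.sum_mul, Finset.sum_add_distrib,
        Finset.sum_const, Finset.sum_const, nsmul_eq_mul, nsmul_eq_mul]
      have hJ : ((Jᶜ.card : ℕ) : ℝ) ≤ k := by
        have := Finset.card_le_univ Jᶜ
        rw [Fintype.card_fin] at this
        exact_mod_cast this
      have h8 : ((Jᶜ.card : ℕ) : ℝ) * (δ / 2 / (k + 1)) ≤ δ / 2 := by
        rw [mul_div_assoc', div_le_iff₀ hk0]
        nlinarith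
      have h10 : ((Jᶜ.card : ℕ) : ℝ) * (d * Ck) ≤ k * (d * Ck) :=
        mul_le_mul_of_nonneg_right hJ (by positivity)
      refine add_le_add (mul_le_mul_of_nonneg_right ?_ hh0) h10
      unfold degree
      linarith
    -- the pieces in `J` and the others
    have hfinP : ∀ I : Finset (Fin k),
        {v : HeightOneSpectrum (𝓞 K) | ∃ l ∈ I, NearP (z l) φ v}.Finite := by
      intro I
      refine (Set.finite_iUnion fun l => hfin l).subset ?_
      rintro v ⟨l, -, hv⟩
      exact Set.mem_iUnion.mpr ⟨l, hv⟩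
    have h8 : cc S0 (fun v => ∃ l ∈ (Finset.univ : Finset (Fin k)), NearP (z l) φ v) ≤
        cc S0 (fun v => ∃ l ∈ J, NearP (z l) φ v) +
          ∑ l ∈ Jᶜ, cc S0 (fun v => NearP (z l) φ v) := by
      have h1 := cc_mono (S := S0) (le_refl S0)
        (A := fun v => (∃ l ∈ J, NearP (z l) φ v) ∨ ∃ l ∈ Jᶜ, NearP (z l) φ v)
        (A' := fun v => ∃ l ∈ (Finset.univ : Finset (Fin k)), NearP (z l) φ v)
        ((hfinP J).union (hfinP Jᶜ)) (by
          rintro v - ⟨l, -, hl⟩
          by_cases h : l ∈ J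
          · exact Or.inl ⟨l, h, hl⟩
          · exact Or.inr ⟨l, Finset.mem_compl.mpr h, hl⟩)
      have h2 := cc_or S0 (hfinP J) (hfinP Jᶜ)
      have h3 := cc_exists S0 Jᶜ (fun l (v : HeightOneSpectrum (𝓞 K)) => NearP (z l) φ v) hfin
      linarith
    have h9 : cc S0 (fun v => ∃ l ∈ J, NearP (z l) φ v) ≤
        cnt1 S (fun v => ∃ l ∈ J, NearP (z l) φ v) := by
      unfold cc cnt1
      refine finsum_le_finsum' (ct_support S0 (hfinP J)) ?_ ?_
      · refine (hfinP J).subset fun v hv => ?_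
        rw [Function.mem_support] at hv
        by_contra hb
        apply hv
        rw [if_neg]
        rintro ⟨-, h2⟩
        exact hb h2
      · intro v
        beta_reduce
        by_cases h1 : (∀ p ∈ S0, (p : 𝓞 K) ∉ v.asIdeal) ∧ ∃ l ∈ J, NearP (z l) φ v
        · rw [ct_pos h1, if_pos ⟨(hS0v v h1.1).1, h1.2⟩]
        · rw [ct_neg h1]
          split_ifs
          · exact log_norm_nonneg v
          · exact le_rfl
    have h10 := hCa t hne
    obtain ⟨Q, hQ⟩ : ∃ Q : ℝ, Q = cnt S' (fun j => pt (brQ j)) t := ⟨_, rfl⟩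
    obtain ⟨T, hT⟩ : ∃ T : ℝ, T = cnt1 S (fun v => ∃ l ∈ J, NearP (z l) φ v) := ⟨_, rfl⟩
    rw [← hQ] at h10
    rw [← hQ] at hk1
    rw [← hT] at h9 hcnt0 ⊢
    have hQle : Q ≤ T + (1 - degree s z e J + δ / 2) * hh + k * (d * Ck) := by linarith
    -- `hh ≤ (1 + δ / 2) Q + Ca`
    have hQ2 : (1 - δ / 2) * hh ≤ Q + |Ca| := by
      have h11 : hh ≤ (1 + δ / 2) * Q + |Ca| := h10.trans (by
        have := le_abs_self Ca; linarith)
      have h12 : (1 + δ / 2) * ((1 - δ / 2) * hh) ≤ (1 + δ / 2) * (Q + |Ca|) := by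
        have h13 : (1 + δ / 2) * ((1 - δ / 2) * hh) ≤ hh := by nlinarith [sq_nonneg δ]
        have h14 : |Ca| ≤ (1 + δ / 2) * |Ca| := by nlinarith [abs_nonneg Ca]
        linarith
      exact le_of_mul_le_mul_left h12 (by positivity)
    have h15 := abs_nonneg CG
    have h16 : (degree s z e J - δ) * hh = (1 - δ / 2) * hh -
        (1 - degree s z e J + δ / 2) * hh := by ring
    linarith

end Pool.Agent.Q239.St
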