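import Pool.Agent.Q239.U.Sphere
import Pool.Agent.W223.AC.KeyG

/-!
# Stacky lines: from one stacky line to the abc inequality
-/

set_option autoImplicit false

namespace Pool.Agent.Q239.St

open NumberField IsDedekindDomain Height
open Pool.Agent.Q239.NF Pool.Agent.Q239.U
open Pool.Agent.W125.CV (fv fv_eq)
open Pool.Agent.W223.CV (cc ct ct_pos ct_neg ct_nonneg ct_support log_norm_nonneg)
open Pool.Agent.W223.AC (val_finite val_nat_eq_one not_mem_of_primes)

variable {K : Type} [Field K] [NumberField K]

/-- the points `0`, `1`, `-1` -/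
def branch (K : Type) [Field K] : Fin 3 → K := ![0, 1, -1]

/-- near one of the three points -/
def Nr (t : K) (v : HeightOneSpectrum (𝓞 K)) : Prop :=
  v.valuation K t ≤ 1 ∧ ∃ j, v.valuation K (t - branch K j) < 1

/-- the vector with sum `0` attached to `t` -/
def vec (t : K) : Fin 3 → K := ![2 * t, 1 - t, -1 - t]

lemma fv_lt_iff (v : HeightOneSpectrum (𝓞 K)) (x y : K) :
    fv v x < fv v y ↔ v.valuation K x < v.valuation K y := by
  rw [fv_eq, fv_eq, NNReal.coe_lt_coe]
  exact (WithZeroMulInt.toNNReal_strictMono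
    (HeightOneSpectrum.one_lt_absNorm_nnreal v)).lt_iff_lt

lemma fv_eq_iff (v : HeightOneSpectrum (𝓞 K)) (x y : K) :
    fv v x = fv v y ↔ v.valuation K x = v.valuation K y := by
  have h1 := fv_lt_iff v x y
  have h2 := fv_lt_iff v y x
  constructor
  · intro h
    have a1 : ¬ v.valuation K x < v.valuation K y := fun h3 => (h1.mpr h3).ne h
    have a2 : ¬ v.valuation K y < v.valuation K x := fun h3 => (h2.mpr h3).ne' h
    exact le_antisymm (not_lt.mp a2) (not_lt.mp a1)
  · intro h
    have a1 : ¬ fv v x < fv v y := fun h3 => (h1.mp h3).ne h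
    have a2 : ¬ fv v y < fv v x := fun h3 => (h2.mp h3).ne' h
    exact le_antisymm (not_lt.mp a2) (not_lt.mp a1)

/-- the primes at which the coordinates do not have the same absolute value -/
def BadV (x : Fin 3 → K) (v : HeightOneSpectrum (𝓞 K)) : Prop :=
  ∃ i j, v.valuation K (x i) ≠ v.valuation K (x j)

lemma RR_eq_cc (x : Fin 3 → K) : RR x = cc ∅ (BadV x) := by
  rw [RR_eq]
  unfold cc
  rw [← finsum_comp_equiv (FinitePlace.equivHeightOneSpectrum (K := K))]
  refine finsum_congr fun w => ?_
  have e : FinitePlace.equivHeightOneSpectrum w = w.maximalIdeal := rfl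
  rw [e]
  have e2 : ∀ y : K, w y = fv w.maximalIdeal y := by
    intro y
    conv_lhs => rw [← FinitePlace.mk_maximalIdeal w]
    rfl
  by_cases h : w ∈ Bad x
  · rw [Set.indicator_of_mem h, ct_pos]
    · rfl
    · refine ⟨by simp, ?_⟩
      obtain ⟨i, j, hij⟩ := h
      refine ⟨i, j, fun h3 => hij ?_⟩
      rw [e2, e2]
      exact (fv_eq_iff _ _ _).mpr h3
  · rw [Set.indicator_of_notMem h, ct_neg]
    rintro ⟨-, i, j, hij⟩
    apply h
    refine ⟨i, j, fun h3 => hij ?_⟩
    rw [e2, e2] at h3
    exact (fv_eq_iff _ _ _).mp h3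

/-- heights of `t` and `vec t` -/
lemma height_vec_le (K : Type) [Field K] [NumberField K] : ∃ C : ℝ, ∀ t : K,
    logHeight (vec t) ≤ C + logHeight₁ t := by
  set A : Fin 3 × Fin 2 → K := fun ij =>
    (![![2, 0], ![-1, 1], ![-1, -1]] : Fin 3 → Fin 2 → K) ij.1 ij.2 with hA
  refine ⟨Height.totalWeight K * Real.log (Nat.card (Fin 2)) + logHeight A, fun t => ?_⟩
  have h := logHeight_linearMap_apply_le A ![t, 1]
  have e : (fun j ↦ ∑ i, A (j, i) * (![t, 1] : Fin 2 → K) i) = vec t := by
    funext j
    fin_cases j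
    · simp [hA, vec, Fin.sum_univ_two]
    · simp [hA, vec, Fin.sum_univ_two]; ring
    · simp [hA, vec, Fin.sum_univ_two]; ring
  rw [e, ← logHeight₁_eq_logHeight] at h
  exact h

lemma height_le_vec (K : Type) [Field K] [NumberField K] : ∃ C : ℝ, ∀ t : K,
    logHeight₁ t ≤ C + logHeight (vec t) := by
  set A : Fin 2 × Fin 3 → K := fun ij =>
    (![![1 / 2, 0, 0], ![0, 1 / 2, -1 / 2]] : Fin 2 → Fin 3 → K) ij.1 ij.2 with hA
  refine ⟨Height.totalWeight K * Real.log (Nat.card (Fin 3)) + logHeight A, fun t => ?_⟩
  have h := logHeight_linearMap_apply_le A (vec t)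
  have e : (fun j ↦ ∑ i, A (j, i) * (vec t) i) = ![t, 1] := by
    funext j
    fin_cases j
    · simp [hA, vec, Fin.sum_univ_three]
    · simp [hA, vec, Fin.sum_univ_three]; ring
  rw [e, ← logHeight₁_eq_logHeight] at h
  exact h

/-- `t` is an `S`-integral point of the stacky line with stacky points of order `e j` at
`0`, `1`, `-1` -/
def OnLine (S : Finset (HeightOneSpectrum (𝓞 K))) (e : Fin 3 → ℕ) (t : K) : Prop :=
  ∀ v ∉ S, v.valuation K t ≤ 1 → ∀ j, v.valuation K (t - branch K j) < 1 →
    ∃ m : ℕ, e j ∣ m ∧ v.valuation K (t - branch K j) = WithZero.exp (-(m : ℤ))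

open Classical in
/-- the truncated counting function -/
noncomputable def cnt1 (S : Finset (HeightOneSpectrum (𝓞 K)))
    (A : HeightOneSpectrum (𝓞 K) → Prop) : ℝ :=
  ∑ᶠ v : HeightOneSpectrum (𝓞 K), if v ∉ S ∧ A v then Real.log (Ideal.absNorm v.asIdeal) else 0

/-- the inequality for one stacky line -/
def LineIneq (K : Type) [Field K] [NumberField K] (e : Fin 3 → ℕ) : Prop :=
  ∀ (S : Finset (HeightOneSpectrum (𝓞 K))) (δ : ℝ), 0 < δ → ∃ C : ℝ, ∀ t : K,
    (∀ j, t ≠ branch K j) → OnLine S e t → (1 - δ) * logHeight₁ t - C ≤ cnt1 S (Nr t)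

lemma nr_fin {t : K} (h : ∀ j, t ≠ branch K j) : {v | Nr t v}.Finite := by
  refine (Set.finite_iUnion fun j => val_finite _ (sub_ne_zero.2 (h j))).subset ?_
  rintro v ⟨-, j, hj⟩
  exact Set.mem_iUnion.2 ⟨j, hj⟩

lemma bad_fin {x : Fin 3 → K} (hx : ∀ i, x i ≠ 0) : {v | BadV x v}.Finite := by
  have key : ∀ i, {v : HeightOneSpectrum (𝓞 K) | v.valuation K (x i) ≠ 1}.Finite := by
    intro i
    refine ((val_finite _ (hx i)).union (val_finite _ (inv_ne_zero (hx i)))).subset ?_
    intro v hv
    rcases lt_or_gt_of_ne (show v.valuation K (x i) ≠ 1 from hv) with h | h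
    · exact Or.inl h
    · right
      show v.valuation K (x i)⁻¹ < 1
      rw [map_inv₀]
      exact inv_lt_one_of_one_lt₀ h
  refine (Set.finite_iUnion key).subset ?_
  rintro v ⟨i, j, hij⟩
  by_contra hcon
  simp only [Set.mem_iUnion, not_exists] at hcon
  have h1 : v.valuation K (x i) = 1 := not_not.1 (hcon i)
  have h2 : v.valuation K (x j) = 1 := not_not.1 (hcon j)
  exact hij (h1.trans h2.symm)

lemma cnt1_le_RR {S : Finset (HeightOneSpectrum (𝓞 K))} {A : HeightOneSpectrum (𝓞 K) → Prop}
    {x : Fin 3 → K} (hx : ∀ i, x i ≠ 0) (h : ∀ v ∉ S, A v → BadV x v) :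
    cnt1 S A ≤ RR x := by
  classical
  rw [RR_eq_cc]
  unfold cnt1 cc
  have hf := bad_fin hx
  refine finsum_le_finsum' ?_ (ct_support ∅ hf) ?_
  · refine hf.subset fun v hv => ?_
    rw [Function.mem_support] at hv
    by_contra hb
    apply hv
    rw [if_neg]
    rintro ⟨h1, h2⟩
    exact hb (h v h1 h2)
  · intro v
    beta_reduce
    by_cases h1 : v ∉ S ∧ A v
    · rw [if_pos h1, ct_pos ⟨by simp, h v h1.1 h1.2⟩]
    · rw [if_neg h1]
      exact ct_nonneg _ _ _

/-- at a prime not above `2`, `t` is near one of the three points if and only if the coordinates do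
not have the same absolute value -/
lemma nr_iff_bad {t : K} {v : HeightOneSpectrum (𝓞 K)} (h2 : v.valuation K (2 : K) = 1) :
    Nr t v ↔ BadV (vec t) v := by
  have e0 : v.valuation K (vec t 0) = v.valuation K t := by
    show v.valuation K (2 * t) = _
    rw [map_mul, h2, one_mul]
  have e1 : v.valuation K (vec t 1) = v.valuation K (t - 1) := by
    show v.valuation K (1 - t) = _
    rw [← Valuation.map_neg]; congr 1; ring
  have e2 : v.valuation K (vec t 2) = v.valuation K (t + 1) := by
    show v.valuation K (-1 - t) = _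
    rw [← Valuation.map_neg]; congr 1; ring
  have b0 : t - branch K 0 = t := sub_zero t
  have b1 : t - branch K 1 = t - 1 := rfl
  have b2 : t - branch K 2 = t + 1 := sub_neg_eq_add t 1
  constructor
  · rintro ⟨ht, j, hj⟩
    fin_cases j
    · replace hj : v.valuation K t < 1 := by rw [← b0]; exact hj
      refine ⟨0, 1, ?_⟩
      rw [e0, e1]
      have : v.valuation K (t - 1) = 1 := by
        rw [Valuation.map_sub_eq_of_lt_right _ (by rw [map_one]; exact hj), map_one]
      rw [this]; exact hj.ne
    · replace hj : v.valuation K (t - 1) < 1 := hj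
      refine ⟨1, 2, ?_⟩
      rw [e1, e2]
      have : v.valuation K (t + 1) = 1 := by
        have e : t + 1 = (t - 1) + 2 := by ring
        rw [e, Valuation.map_add_eq_of_lt_right _ (by rw [h2]; exact hj), h2]
      rw [this]; exact hj.ne
    · replace hj : v.valuation K (t + 1) < 1 := by rw [← b2]; exact hj
      refine ⟨2, 1, ?_⟩
      rw [e1, e2]
      have : v.valuation K (t - 1) = 1 := by
        have e : t - 1 = (t + 1) - 2 := by ring
        rw [e, Valuation.map_sub_eq_of_lt_right _ (by rw [h2]; exact hj), h2]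
      rw [this]; exact hj.ne
  · rintro ⟨i, j, hij⟩
    have key : ∀ i, v.valuation K (vec t i) < 1 → Nr t v := by
      intro i hi
      have hle : v.valuation K t ≤ 1 := by
        fin_cases i
        · rw [← e0]; exact hi.le
        · replace hi : v.valuation K (t - 1) < 1 := by rw [← e1]; exact hi
          have e : t = (t - 1) + 1 := by ring
          rw [e]
          exact Valuation.map_add_le _ hi.le (by rw [map_one])
        · replace hi : v.valuation K (t + 1) < 1 := by rw [← e2]; exact hi
          have e : t = (t + 1) - 1 := by ring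
          rw [e]
          exact Valuation.map_sub_le _ hi.le (by rw [map_one])
      refine ⟨hle, i, ?_⟩
      fin_cases i
      · show v.valuation K (t - branch K 0) < 1
        rw [b0, ← e0]; exact hi
      · show v.valuation K (t - branch K 1) < 1
        rw [b1, ← e1]; exact hi
      · show v.valuation K (t - branch K 2) < 1
        rw [b2, ← e2]; exact hi
    by_cases ht : v.valuation K t ≤ 1
    · have hall : ∀ i, v.valuation K (vec t i) ≤ 1 := by
        intro i
        fin_cases i
        · show v.valuation K (vec t 0) ≤ 1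
          rw [e0]; exact ht
        · show v.valuation K (vec t 1) ≤ 1
          rw [e1]; exact Valuation.map_sub_le _ ht (by rw [map_one])
        · show v.valuation K (vec t 2) ≤ 1
          rw [e2]; exact Valuation.map_add_le _ ht (by rw [map_one])
      rcases (hall i).lt_or_eq with h3 | h3
      · exact key i h3
      · rcases (hall j).lt_or_eq with h4 | h4
        · exact key j h4
        · exact absurd (h3.trans h4.symm) hij
    · exfalso
      push Not at ht
      have hall : ∀ i, v.valuation K (vec t i) = v.valuation K t := by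
        intro i
        fin_cases i
        · exact e0
        · show v.valuation K (vec t 1) = _
          rw [e1]
          exact Valuation.map_sub_eq_of_lt_left _ (by rw [map_one]; exact ht)
        · show v.valuation K (vec t 2) = _
          rw [e2]
          exact Valuation.map_add_eq_of_lt_left _ (by rw [map_one]; exact ht)
      exact hij ((hall i).trans (hall j).symm)

end Pool.Agent.Q239.St
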