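import Pool.Agent.Q239.St.Curve

/-!
# A stacky line is a stacky curve
-/

set_option autoImplicit false

namespace Pool.Agent.Q239.St

open NumberField IsDedekindDomain Height Polynomial
open Pool.Agent.Q239.NF Pool.Agent.Q239.U
open Pool.Agent.W223.AC (NearP tt)

variable {K : Type} [Field K] [NumberField K]

/-- the inequality for all stacky curves -/
def CurveIneq (K : Type) [Field K] [NumberField K] : Prop :=
  ∀ (A : Type) [CommRing A] [IsDedekindDomain A] [Algebra ℚ A] [Algebra ℚ[X] A]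
    [IsScalarTower ℚ ℚ[X] A] [Module.Finite ℚ[X] A] [FaithfulSMul ℚ[X] A]
    (k : ℕ) (j : Fin k → Fin 3) (s : Fin k → ℕ) (z : ∀ l, Fin (s l + 1) → A),
    (∀ l, z l 0 = tt A - algebraMap ℚ[X] A (C (brQ (j l)))) →
    (∀ i, ∏ l with j l = i, Ideal.span (Set.range (z l)) ≤
      (Ideal.span {tt A - algebraMap ℚ[X] A (C (brQ i))}).radical) →
    ∀ (S : Finset (HeightOneSpectrum (𝓞 K))) (δ : ℝ), 0 < δ →
    ∃ Cf : ℝ, ∀ φ : A →+* K, (∀ i, φ (tt A) ≠ branch K i) →
      ∀ (e : Fin k → ℕ) (J : Finset (Fin k)), (∀ l, 1 ≤ e l) → IntPt S s z e φ →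
        (degree s z e J - δ) * logHeight₁ (φ (tt A)) - Cf ≤
          cnt1 S (fun v => ∃ l ∈ J, NearP (z l) φ v)

attribute [local instance] Polynomial.algebra

instance finKX : Module.Finite ℚ[X] K[X] := by
  have : Algebra.IsPushout ℚ ℚ[X] K K[X] := inferInstance
  exact Module.Finite.equiv (Algebra.IsPushout.equiv ℚ ℚ[X] K K[X]).toLinearEquiv

theorem line_of_curve (h : CurveIneq K) (e : Fin 3 → ℕ) (he : ∀ l, 1 ≤ e l) : LineIneq K e := by
  classical
  intro S δ hδ
  have hmap : ∀ c : ℚ, algebraMap ℚ[X] K[X] (C c) = C (c : K) := by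
    intro c
    rw [Polynomial.algebraMap_def]
    show Polynomial.map (algebraMap ℚ K) (C c) = _
    rw [Polynomial.map_C]
    rfl
  have htt : tt K[X] = X := by
    show algebraMap ℚ[X] K[X] X = X
    rw [Polynomial.algebraMap_def]
    exact Polynomial.map_X _
  obtain ⟨C0, hC0⟩ := h K[X] 3 id (fun _ => 0)
    (fun l _ => tt K[X] - algebraMap ℚ[X] K[X] (C (brQ l))) (fun l => rfl) (by
      intro i
      have e1 : (Finset.univ.filter fun l : Fin 3 => id l = i) = {i} := by
        ext l; simp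
      rw [e1, Finset.prod_singleton]
      refine le_trans (le_of_eq ?_) Ideal.le_radical
      congr 1
      exact Set.range_const) S δ hδ
  refine ⟨C0, fun t ht hon => ?_⟩
  have e1 : (Polynomial.evalRingHom t) (tt K[X]) = t := by rw [htt]; simp
  have e2 : ∀ l : Fin 3, (Polynomial.evalRingHom t)
      (tt K[X] - algebraMap ℚ[X] K[X] (C (brQ l))) = t - branch K l := by
    intro l
    rw [map_sub, e1, hmap, brQ_cast]
    simp
  have h1 := hC0 (Polynomial.evalRingHom t) (by intro i; rw [e1]; exact ht i) e Finset.univ he (by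
    intro v hv l hnear
    have h3 : v.valuation K t ≤ 1 := by rw [← e1]; exact hnear.1
    have h4 : v.valuation K (t - branch K l) < 1 := by rw [← e2]; exact hnear.2 0
    obtain ⟨m, hm, hval⟩ := hon v hv h3 l h4
    refine ⟨m, hm, fun i => ?_, 0, ?_⟩
    · show v.valuation K ((Polynomial.evalRingHom t) _) ≤ _
      rw [e2, hval]
    · show v.valuation K ((Polynomial.evalRingHom t) _) = _
      rw [e2, hval])
  rw [e1] at h1
  have e3 : degree (fun _ => 0) (fun (l : Fin 3) (_ : Fin (0 + 1)) =>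
      tt K[X] - algebraMap ℚ[X] K[X] (C (brQ l))) e Finset.univ = 1 := by
    unfold degree
    rw [Finset.compl_univ, Finset.sum_empty, sub_zero]
  rw [e3] at h1
  have e4 : cnt1 S (fun v => ∃ l ∈ (Finset.univ : Finset (Fin 3)),
      NearP (fun (_ : Fin (0 + 1)) => tt K[X] - algebraMap ℚ[X] K[X] (C (brQ l)))
        (Polynomial.evalRingHom t) v) = cnt1 S (Nr t) := by
    congr 1
    funext v
    apply propext
    constructor
    · rintro ⟨l, -, h3, h4⟩
      refine ⟨by rw [← e1]; exact h3, l, ?_⟩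
      rw [← e2]; exact h4 0
    · rintro ⟨h3, l, h4⟩
      refine ⟨l, Finset.mem_univ l, by rw [e1]; exact h3, fun i => ?_⟩
      rw [e2]; exact h4
  rw [e4] at h1
  exact h1

/-- the main equivalence -/
theorem main {p q r : ℕ} (s : SMap p q r) (hp : 1 ≤ p) (hq : 1 ≤ q) (hr : 1 ≤ r) :
    LineIneq K ![p, q, r] ↔ CurveIneq K := by
  constructor
  · intro h A _ _ _ _ _ _ _ k j s' z hz0 hcov S δ hδ
    obtain ⟨n, hn, hmain⟩ := s.main K
    exact curve_of_abc (hmain (abc_of_line hn h)) A k j s' z hz0 hcov S δ hδ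
  · intro h
    refine line_of_curve h _ fun l => ?_
    fin_cases l
    · exact hp
    · exact hq
    · exact hr

end Pool.Agent.Q239.St
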